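import Pool.Agent.Y462.AR.Tool

/-!
# Artin groups glued along two generators embed in the amalgamated product
-/

set_option autoImplicit false

namespace Pool.Agent.Y349.AR

open Pool.Agent.Y462.PA Pool.Agent.Y462.AR

theorem t_ama : S_AMA := by
  classical
  intro V M V1 V2 s0 t0 h1 h2 h3 h4 hsymm hU hI h0 α β hα0 hα1 hβ0 hβ1
  have hV2 : ∀ s, s ∉ V1 → s ∈ V2 := by
    intro s hs
    have h : s ∈ V1 ∪ V2 := by
      rw [hU]
      exact Set.mem_univ s
    exact h.resolve_left hs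
  obtain ⟨i1, hi1⟩ := t_lift V1 (Art V M) (fun s t => M s t) (fun s => gen M s)
    (fun s t h => t_rel V M s t h)
  obtain ⟨i2, hi2⟩ := t_lift V2 (Art V M) (fun s t => M s t) (fun s => gen M s)
    (fun s t h => t_rel V M s t h)
  have hcomp : i1.comp α = i2.comp β := by
    refine hom_ext fun b => ?_
    cases b
    · rw [MonoidHom.comp_apply, MonoidHom.comp_apply, hα0, hβ0, hi1, hi2]
    · rw [MonoidHom.comp_apply, MonoidHom.comp_apply, hα1, hβ1, hi1, hi2]
  have hc : ∀ c, i1 (α c) = i2 (β c) := fun c => DFunLike.congr_fun hcomp c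
  let f : V → Am α β := fun s =>
    if h : s ∈ V1 then Am.inl α β (gen _ ⟨s, h⟩) else Am.inr α β (gen _ ⟨s, hV2 s h⟩)
  have f1 : ∀ (s : V) (h : s ∈ V1), f s = Am.inl α β (gen _ ⟨s, h⟩) := fun s h => dif_pos h
  have f2 : ∀ (s : V) (h : s ∈ V2), f s = Am.inr α β (gen _ ⟨s, h⟩) := by
    intro s h
    by_cases hs : s ∈ V1
    · have hm : s ∈ V1 ∩ V2 := ⟨hs, h⟩
      rw [hI] at hm
      rw [f1 s hs]
      rcases hm with hm | hm
      · subst hm
        rw [← hα0, ← hβ0]
        exact Am.glue α β _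
      · have hm' : s = t0 := hm
        subst hm'
        rw [← hα1, ← hβ1]
        exact Am.glue α β _
    · exact dif_neg hs
  have hrel : ∀ s t, M s t ≠ 0 → alt (M s t) (f s) (f t) = alt (M s t) (f t) (f s) := by
    intro s t hst
    by_cases hs1 : s ∈ V1
    · by_cases ht1 : t ∈ V1
      · rw [f1 s hs1, f1 t ht1, ← map_alt, ← map_alt]
        exact congrArg _ (t_rel V1 (fun s t => M s t) ⟨s, hs1⟩ ⟨t, ht1⟩ hst)
      · have ht2 := hV2 t ht1
        by_cases hs2 : s ∈ V2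
        · rw [f2 s hs2, f2 t ht2, ← map_alt, ← map_alt]
          exact congrArg _ (t_rel V2 (fun s t => M s t) ⟨s, hs2⟩ ⟨t, ht2⟩ hst)
        · exact absurd (h0 s ⟨hs1, hs2⟩ t ⟨ht2, ht1⟩) hst
    · have hs2 := hV2 s hs1
      by_cases ht2 : t ∈ V2
      · rw [f2 s hs2, f2 t ht2, ← map_alt, ← map_alt]
        exact congrArg _ (t_rel V2 (fun s t => M s t) ⟨s, hs2⟩ ⟨t, ht2⟩ hst)
      · have ht1 : t ∈ V1 := by
          by_contra ht1
          exact ht2 (hV2 t ht1)
        rw [hsymm] at hst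
        exact absurd (h0 t ⟨ht1, ht2⟩ s ⟨hs2, hs1⟩) hst
  obtain ⟨j, hj⟩ := t_lift V (Am α β) M f hrel
  have hid : (Am.lift α β i1 i2 hc).comp j = MonoidHom.id (Art V M) := by
    refine hom_ext fun s => ?_
    rw [MonoidHom.comp_apply, MonoidHom.id_apply, hj]
    by_cases hs : s ∈ V1
    · rw [f1 s hs, Am.lift_inl, hi1]
    · rw [f2 s (hV2 s hs), Am.lift_inr, hi2]
  refine ⟨j, fun x y hxy => ?_⟩
  have hx := DFunLike.congr_fun hid x
  have hy := DFunLike.congr_fun hid y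
  rw [MonoidHom.comp_apply, MonoidHom.id_apply] at hx hy
  rw [← hx, ← hy, hxy]

end Pool.Agent.Y349.AR
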